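import Pool.Agent.TH332.Env.Fold

/-!
# The Riesz measure of the lower envelope of finitely many δ-subharmonic functions

For all `2 ≤ r ≤ m` the Riesz measure of `w 1 ∧ ... ∧ w m` dominates the infimum of the Riesz
measures of the minima of the `r`-element subfamilies. The case `r = 2` is the question.
-/

set_option autoImplicit false

open MeasureTheory Set Filter Topology
open scoped ContDiff Laplacian ENNReal

namespace Pool.Agent.Results.MP_730047_an.LowerEnvelope

open Pool.Agent.Helper486.TP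

variable {n : ℕ} {Ω : Set (E n)}

theorem iInf_eq_inf' {m : ℕ} (J : Finset (Fin m)) (hJ : J.Nonempty) (a : Fin m → EReal) :
    ⨅ j ∈ J, a j = J.inf' hJ a := by
  rw [Finset.inf'_eq_inf, Finset.inf_eq_iInf]

theorem result : ∀ n : ℕ, 1 ≤ n → ∀ Ω : Set (E n), IsOpen Ω → IsConnected Ω →
    ∀ m r : ℕ, 2 ≤ r → r ≤ m → ∀ w : Fin m → E n → EReal, (∀ j, DeltaSubharmonic Ω (w j)) →
    ∀ c : ℝ, 0 < c →
      (∀ J : Finset (Fin m), J.Nonempty → ∃ ρ, IsRiesz c Ω (fun x => ⨅ j ∈ J, w j x) ρ) ∧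
      ∀ (μ : SignedRadon Ω) (ρ : Finset (Fin m) → SignedRadon Ω),
        IsRiesz c Ω (fun x => ⨅ j, w j x) μ →
        (∀ J : Finset (Fin m), J.card = r → IsRiesz c Ω (fun x => ⨅ j ∈ J, w j x) (ρ J)) →
        (∃ I, IsGLB {κ | ∃ J : Finset (Fin m), J.card = r ∧ κ = ρ J} I) ∧
        ∀ I, IsGLB {κ | ∃ J : Finset (Fin m), J.card = r ∧ κ = ρ J} I → I ≤ μ := by
  intro n hn Ω hΩ hΩcon m r hr hrm w hw c hc
  have hΩc : IsPreconnected Ω := hΩcon.isPreconnected
  have hn0 : 0 < n := hn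
  have : Nonempty (Fin m) := ⟨⟨0, by omega⟩⟩
  have hne : (Finset.univ : Finset (Fin m)).Nonempty := Finset.univ_nonempty
  have hfin : ∀ᵐ x ∂(volume : Measure (E n)), ∀ j, x ∈ Ω → w j x ≠ ⊥ ∧ w j x ≠ ⊤ :=
    ae_all_iff.2 fun j => (hw j).finite hn0 hΩ hΩc
  have hlap : ∀ j, ∃ P N, HasLap Ω (fun x => (w j x).toReal) P N := fun j =>
    (hw j).exists_lap hn0 hΩ hΩc
  have hlapc : ∀ j, ∃ P N, HasLap Ω (fun x => c * (w j x).toReal) P N := fun j => by
    obtain ⟨P, N, h⟩ := hlap j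
    exact ⟨_, _, h.const_mul hc⟩
  -- the infimum over a subfamily
  have hinf : ∀ (J : Finset (Fin m)) (hJ : J.Nonempty), ∀ᵐ x ∂(volume : Measure (E n)), x ∈ Ω →
      J.inf' hJ (fun j => (w j x).toReal) = (⨅ j ∈ J, w j x).toReal := by
    intro J hJ
    filter_upwards [hfin] with x hx hxΩ
    rw [iInf_eq_inf' J hJ, ← toReal_inf' _ _ _ (fun j => hx j hxΩ)]
  have huniv : ∀ x, ⨅ j, w j x = ⨅ j ∈ (Finset.univ : Finset (Fin m)), w j x := by
    intro x; simp
  have hmul : ∀ (J : Finset (Fin m)) (hJ : J.Nonempty) (x : E n),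
      J.inf' hJ (fun i => c * (w i x).toReal) = c * J.inf' hJ (fun i => (w i x).toReal) := by
    intro J hJ x
    rw [Finset.apply_inf'_eq_inf'_comp (s := J) hJ (g := fun t : ℝ => c * t)
      (fun x y => mul_min_of_nonneg _ _ hc.le)]
    rfl
  refine ⟨?_, ?_⟩
  · intro J hJ
    obtain ⟨P, N, h⟩ := fam_hasLap hn0 hΩ hlap J hJ
    exact (h.congr hΩ.measurableSet (hinf J hJ)).isRiesz hc
  · intro μ ρ hμ hρ
    constructor
    · let ι : Type := {J : Finset (Fin m) // J.card = r}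
      have : Nonempty ι := by
        obtain ⟨J, -, hJ⟩ := Finset.exists_subset_card_eq (s := (Finset.univ : Finset (Fin m)))
          (n := r) (by simpa using hrm)
        exact ⟨⟨J, hJ⟩⟩
      obtain ⟨I, hI⟩ := exists_glb hΩ (fun p : ι => ρ p.1)
      refine ⟨I, ?_⟩
      have hr : Set.range (fun p : ι => ρ p.1) =
          {κ | ∃ J : Finset (Fin m), J.card = r ∧ κ = ρ J} := by
        ext κ
        constructor
        · rintro ⟨p, rfl⟩
          exact ⟨p.1, p.2, rfl⟩
        · rintro ⟨J, hJ, rfl⟩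
          exact ⟨⟨J, hJ⟩, rfl⟩
      rwa [← hr]
    · intro I hI
      refine SignedRadon.le_of_int hΩ fun φ hφ hφ0 => ?_
      have hIl : ∀ (J : Finset (Fin m)) (hJ : J.Nonempty), J.card = r → ∀ ψ, TestOn Ω ψ →
          (∀ x, 0 ≤ ψ x) → (∫ x, ψ x ∂I.pos) - (∫ x, ψ x ∂I.neg) ≤
            ∫ x, J.inf' hJ (fun i => c * (w i x).toReal) * (Δ ψ) x := by
        intro J hJ hJr ψ hψ hψ0
        have h1 : I ≤ ρ J := hI.1 ⟨J, hJr, rfl⟩
        refine (SignedRadon.int_le h1 hψ hψ0).trans (le_of_eq ?_)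
        rw [(hρ J hJr).2 ψ hψ.smooth hψ.cpt hψ.sub, ← int_congr_on (hinf J hJ) hψ,
          ← integral_const_mul]
        refine integral_congr_ae (Eventually.of_forall fun x => ?_)
        simp only
        rw [hmul]; ring
      have key := Pool.Agent.TH332.Env.fam_le_r hn0 hΩ hlapc I.pos_lt_top I.neg_lt_top hr hIl
        (m - r) Finset.univ hne (by rw [Finset.card_univ, Fintype.card_fin]; omega) φ hφ hφ0
      refine key.trans (le_of_eq ?_)
      have hinfu := hinf Finset.univ hne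
      rw [hμ.2 φ hφ.smooth hφ.cpt hφ.sub]
      simp only [huniv]
      rw [← int_congr_on hinfu hφ, ← integral_const_mul]
      refine integral_congr_ae (Eventually.of_forall fun x => ?_)
      simp only
      rw [hmul]; ring

end Pool.Agent.Results.MP_730047_an.LowerEnvelope
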